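import Mathlib

set_option autoImplicit false
open Set Filter Topology

namespace Pool.Agent.H.MP_735d18_an

noncomputable def r : ℕ → ℝ
  | 0 => 1 / 8
  | c + 1 => (r c / 2) ^ (c + 2) / 2

lemma r_pos : ∀ c, 0 < r c
  | 0 => by norm_num [r]
  | c + 1 => by have := r_pos c; rw [r]; positivity

lemma r_le : ∀ c, r c ≤ 1 / 8
  | 0 => le_rfl
  | c + 1 => by
    have h1 := r_le c; have h0 := r_pos c
    have : (r c / 2) ^ (c + 2) ≤ (r c / 2) ^ 1 :=
      pow_le_pow_of_le_one (by positivity) (by linarith) (by omega)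
    rw [r]; linarith

lemma r_succ (c : ℕ) : r (c + 1) ≤ r c / 4 := by
  have h1 := r_le c; have h0 := r_pos c
  have : (r c / 2) ^ (c + 2) ≤ (r c / 2) ^ 1 :=
    pow_le_pow_of_le_one (by positivity) (by linarith) (by omega)
  rw [r]; linarith

lemma r_anti : Antitone r := antitone_nat_of_succ_le fun c => by
  have := r_succ c; have := r_pos c; linarith

lemma r_geo : ∀ c, r c ≤ (1 / 4) ^ c / 8
  | 0 => by norm_num [r]
  | c + 1 => by have := r_geo c; have := r_succ c; rw [pow_succ]; linarith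

lemma r_lim : Tendsto r atTop (𝓝 0) := by
  refine squeeze_zero (fun c => (r_pos c).le) r_geo ?_
  simpa using (tendsto_pow_atTop_nhds_zero_of_lt_one (r := (1 / 4 : ℝ)) (by norm_num) (by norm_num)).div_const 8

lemma r_fast {c d p : ℕ} (h : c < d) (hp : p ≤ c) : 2 * r d ≤ (r c / 2) ^ p := by
  have h1 := r_le c; have h0 := r_pos c
  have h2 : r d ≤ r (c + 1) := r_anti h
  have : (r c / 2) ^ (c + 2) ≤ (r c / 2) ^ p :=
    pow_le_pow_of_le_one (by positivity) (by linarith) (by omega)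
  rw [r] at h2; linarith

def code (σ : ℕ → Fin 2) (n : ℕ) : ℕ := 2 ^ n + finFunctionFinEquiv fun i : Fin n => σ i

lemma code_lt (σ τ : ℕ → Fin 2) {n m : ℕ} (h : n < m) : code σ n < code τ m := by
  have h1 := (finFunctionFinEquiv fun i : Fin n => σ i).2
  have h2 : 2 ^ (n + 1) ≤ 2 ^ m := Nat.pow_le_pow_right (by norm_num) h
  unfold code; omega

lemma le_code (σ : ℕ → Fin 2) (n : ℕ) : n ≤ code σ n :=
  (Nat.lt_two_pow_self (n := n)).le.trans (Nat.le_add_right _ _)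

lemma code_congr {σ τ : ℕ → Fin 2} {n : ℕ} (h : ∀ i < n, σ i = τ i) : code σ n = code τ n := by
  have : (fun i : Fin n => σ i) = fun i : Fin n => τ i := funext fun i => h i i.2
  unfold code; rw [this]

lemma code_inj {σ τ : ℕ → Fin 2} {n m : ℕ} (h : code σ n = code τ m) : ∀ i < n, σ i = τ i := by
  obtain rfl : n = m := by
    rcases lt_trichotomy n m with h1 | h1 | h1
    · exact absurd h (code_lt σ τ h1).ne
    · exact h1
    · exact absurd h (code_lt τ σ h1).ne'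
  intro i hi
  have := finFunctionFinEquiv.injective (Fin.ext (Nat.add_left_cancel h))
  exact congrFun this ⟨i, hi⟩

lemma r_code (σ τ : ℕ → Fin 2) (n : ℕ) : ∀ k, r (code τ (k + (n + 1))) ≤ r (code σ n) / 4 * (1 / 4) ^ k
  | 0 => by simpa using (r_anti (code_lt σ τ (Nat.lt_succ_self n))).trans (r_succ _)
  | k + 1 => by
    have h1 := r_code σ τ n k
    have h2 := (r_anti (code_lt τ τ (show k + (n + 1) < k + 1 + (n + 1) by omega))).trans (r_succ _)
    rw [pow_succ]; linarith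

noncomputable def tm (σ : ℕ → Fin 2) (n : ℕ) : ℝ := (σ n : ℕ) * r (code σ n)

lemma tm_bd (σ : ℕ → Fin 2) (n : ℕ) : 0 ≤ tm σ n ∧ tm σ n ≤ r (code σ n) := by
  have h := r_pos (code σ n)
  have : ((σ n : ℕ) : ℝ) ≤ 1 := by exact_mod_cast Nat.le_of_lt_succ (σ n).2
  exact ⟨by unfold tm; positivity, mul_le_of_le_one_left h.le this⟩

lemma tm_geo (σ : ℕ → Fin 2) (n : ℕ) : tm σ n ≤ (1 / 4) ^ n / 8 :=
  (tm_bd σ n).2.trans ((r_anti (le_code σ n)).trans (r_geo n))

lemma geo : HasSum (fun k : ℕ => (1 / 4 : ℝ) ^ k) (4 / 3) := by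
  convert hasSum_geometric_of_lt_one (r := (1 / 4 : ℝ)) (by norm_num) (by norm_num) using 1
  norm_num

lemma tm_sum (σ : ℕ → Fin 2) : Summable (tm σ) :=
  Summable.of_nonneg_of_le (fun n => (tm_bd σ n).1) (tm_geo σ) (geo.summable.div_const 8)

noncomputable def t (σ : ℕ → Fin 2) : ℝ := ∑' n, tm σ n

lemma t_bd (σ : ℕ → Fin 2) : |t σ| ≤ 1 / 4 := by
  rw [t, abs_of_nonneg (tsum_nonneg fun n => (tm_bd σ n).1)]
  have := hasSum_le (tm_geo σ) (tm_sum σ).hasSum (geo.div_const 8)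
  exact this.trans (by norm_num)

lemma tdiff {σ τ : ℕ → Fin 2} {n : ℕ} (h : ∀ i < n, σ i = τ i) (hn : σ n ≠ τ n) :
    r (code σ n) / 2 ≤ |t σ - t τ| ∧ |t σ - t τ| ≤ 2 * r (code σ n) := by
  have hs := (tm_sum σ).sub (tm_sum τ)
  have e1 : t σ - t τ = ∑' m, (tm σ m - tm τ m) := ((tm_sum σ).tsum_sub (tm_sum τ)).symm
  rw [← hs.sum_add_tsum_nat_add (n + 1), Finset.sum_range_succ, Finset.sum_eq_zero (fun i hi => by
    have hi := Finset.mem_range.1 hi
    unfold tm; rw [h i hi, code_congr (fun j hj => h j (hj.trans hi)), sub_self]), zero_add] at e1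
  have e2 : |tm σ n - tm τ n| = r (code σ n) := by
    unfold tm; rw [← code_congr h, ← sub_mul, abs_mul, abs_of_pos (r_pos _)]
    have : ∀ a b : Fin 2, a ≠ b → |((a : ℕ) : ℝ) - (b : ℕ)| = 1 := by
      intro a b hab; fin_cases a <;> fin_cases b <;> simp at hab ⊢
    rw [this _ _ hn, one_mul]
  have e3 : ‖∑' k, (tm σ (k + (n + 1)) - tm τ (k + (n + 1)))‖ ≤ r (code σ n) / 4 * (4 / 3) := by
    refine tsum_of_norm_bounded (geo.mul_left _) fun k => ?_
    have a1 := tm_bd σ (k + (n + 1)); have a2 := tm_bd τ (k + (n + 1))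
    have a3 := r_code σ σ n k; have a4 := r_code σ τ n k
    rw [Real.norm_eq_abs, abs_le]; constructor <;> linarith
  rw [Real.norm_eq_abs] at e3
  have h0 := r_pos (code σ n)
  rw [e1]
  constructor
  · have := abs_sub_abs_le_abs_add (tm σ n - tm τ n) (∑' k, (tm σ (k + (n + 1)) - tm τ (k + (n + 1))))
    linarith
  · have := abs_add_le (tm σ n - tm τ n) (∑' k, (tm σ (k + (n + 1)) - tm τ (k + (n + 1))))
    linarith

lemma split {σ τ : ℕ → Fin 2} (h : σ ≠ τ) {N : ℕ} (hN : ∀ i < N, σ i = τ i) :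
    ∃ n, N ≤ n ∧ (∀ i < n, σ i = τ i) ∧ σ n ≠ τ n := by
  classical
  have h1 : ∃ n, σ n ≠ τ n := Function.ne_iff.1 h
  refine ⟨Nat.find h1, ?_, fun i hi => not_not.1 (Nat.find_min h1 hi), Nat.find_spec h1⟩
  by_contra h2
  exact Nat.find_spec h1 (hN _ (not_le.1 h2))

lemma tsmall {σ τ : ℕ → Fin 2} (h : σ ≠ τ) {N : ℕ} (hN : ∀ i < N, σ i = τ i) :
    t σ - t τ ≠ 0 ∧ |t σ - t τ| ≤ 2 * r N := by
  obtain ⟨n, h1, h2, h3⟩ := split h hN
  obtain ⟨h4, h5⟩ := tdiff h2 h3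
  have := r_anti (h1.trans (le_code σ n))
  have := r_pos (code σ n)
  exact ⟨abs_pos.1 (by linarith), by linarith⟩

lemma sep {σ τ : ℕ → Fin 2} (h : σ ≠ τ) (p : ℕ) : ∀ᶠ N in atTop, ∀ σ' τ' : ℕ → Fin 2,
    σ ≠ σ' → τ ≠ τ' → (∀ i < N, σ i = σ' i) → (∀ i < N, τ i = τ' i) →
    |t σ - t σ'| ≤ |t τ - t τ'| ^ p ∨ |t τ - t τ'| ≤ |t σ - t σ'| ^ p := by
  obtain ⟨j, hj⟩ := Function.ne_iff.1 h
  filter_upwards [eventually_gt_atTop j, eventually_ge_atTop p] with N h1 h2 σ' τ' a b c d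
  obtain ⟨n, n1, n2, n3⟩ := split a c
  obtain ⟨m, m1, m2, m3⟩ := split b d
  obtain ⟨n4, n5⟩ := tdiff n2 n3
  obtain ⟨m4, m5⟩ := tdiff m2 m3
  rcases lt_trichotomy (code σ n) (code τ m) with h3 | h3 | h3
  · right
    exact m5.trans ((r_fast h3 (h2.trans (n1.trans (le_code σ n)))).trans
      (pow_le_pow_left₀ (by have := r_pos (code σ n); positivity) n4 p))
  · exact absurd (code_inj h3 j (by omega)) hj
  · left
    exact n5.trans ((r_fast h3 (h2.trans (m1.trans (le_code τ m)))).trans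
      (pow_le_pow_left₀ (by have := r_pos (code τ m); positivity) m4 p))

noncomputable def H (a : ℕ → ℝ) (s : ℝ) : ℝ := ∑' n, a n * s ^ n

lemma H_ps {a : ℕ → ℝ} {C : ℝ} (h : ∀ n, |a n| ≤ C) :
    HasFPowerSeriesOnBall (H a) (FormalMultilinearSeries.ofScalars ℝ a) 0 1 := by
  have h1 : ((1 : NNReal) : ENNReal) ≤ (FormalMultilinearSeries.ofScalars ℝ a).radius :=
    FormalMultilinearSeries.le_radius_of_bound _ C fun n => by
      simpa [FormalMultilinearSeries.ofScalars_norm] using h n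
  have h2 := (FormalMultilinearSeries.ofScalars ℝ a).hasFPowerSeriesOnBall (lt_of_lt_of_le (by simp) h1)
  have h3 : H a = (FormalMultilinearSeries.ofScalars ℝ a).sum := by
    funext s
    exact (FormalMultilinearSeries.ofScalars_sum_eq a s).symm
  rw [h3]
  exact h2.mono (by simp) (by simpa using h1)

lemma H_an {a : ℕ → ℝ} {C : ℝ} (h : ∀ n, |a n| ≤ C) {s : ℝ} (hs : |s| < 1) : AnalyticAt ℝ (H a) s :=
  (H_ps h).analyticAt_of_mem (by
    rw [Metric.mem_eball, edist_zero_right, ← ofReal_norm_eq_enorm, ENNReal.ofReal_lt_one]; exact hs)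

lemma H_ne {a : ℕ → ℝ} {C : ℝ} (h : ∀ n, |a n| ≤ C) (ha : a ≠ 0) {s : ℝ} (hs : |s| < 1) :
    ¬ ∀ᶠ z in 𝓝 s, H a z = 0 := by
  intro h0
  have h1 : AnalyticOnNhd ℝ (H a) (Ioo (-1) 1) := fun z hz => H_an h (abs_lt.2 hz)
  have h2 := h1.eqOn_zero_of_preconnected_of_eventuallyEq_zero isPreconnected_Ioo (abs_lt.1 hs) h0
  have h3 : H a =ᶠ[𝓝 0] 0 := eventually_of_mem (Ioo_mem_nhds (by norm_num) (by norm_num)) h2
  have h4 := ((H_ps h).hasFPowerSeriesAt.congr h3).eq_zero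
  exact ha ((FormalMultilinearSeries.ofScalars_series_eq_zero ℝ).1 h4)

lemma core {ι Y : Type} [Fintype ι] [Nonempty ι] (S : Set Y) (a : ι → Y → ℕ → ℝ)
    (hb : ∀ l y, ∃ C, ∀ n, |a l y n| ≤ C) (σ : ι → ℕ → Fin 2) (hσ : Function.Injective σ)
    (σ' : ℕ → ι → ℕ → Fin 2) (hne : ∀ n l, σ l ≠ σ' n l) (hag : ∀ n l, ∀ i < n, σ l i = σ' n l i)
    (b : ℕ → ι → ℝ) (hb1 : ∀ n, ‖b n‖ = 1)
    (rel : ∀ n, ∀ y ∈ S, ∑ l, b n l * H (a l y) (t (σ' n l)) = 0)
    (ind : ∀ (l0 : ι) (c : ι → ℝ), c l0 = 0 → (∀ y ∈ S, ∑ l, c l * H (a l y) (t (σ l)) = 0) → c = 0)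
    (y0 : Y) (hy : y0 ∈ S) (h0 : ∀ l, H (a l y0) (t (σ l)) = 0) (h1 : ∀ l, a l y0 ≠ 0) : False := by
  classical
  have an : ∀ l y, AnalyticAt ℝ (H (a l y)) (t (σ l)) := fun l y =>
    H_an (hb l y).choose_spec ((t_bd _).trans_lt (by norm_num))
  let U := Filter.hyperfilter ℕ
  have hU : (U : Filter ℕ) ≤ atTop := Nat.hyperfilter_le_atTop
  choose lm hlm using fun n => Finite.exists_max fun l => |t (σ l) - t (σ' n l)|
  obtain ⟨l0, hl0⟩ := Ultrafilter.eq_pure_of_finite (U.map lm)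
  have hl : ∀ᶠ n in (U : Filter ℕ), lm n = l0 := by
    have : {l0} ∈ U.map lm := by rw [hl0]; simp
    exact this
  obtain ⟨c, hc, hcb⟩ := (isCompact_sphere (0 : ι → ℝ) 1).ultrafilter_le_nhds (U.map b)
    (le_principal_iff.2 (mem_map.2 (univ_mem' fun n => by simpa using hb1 n)))
  have hcb' : ∀ l, Tendsto (fun n => b n l) U (𝓝 (c l)) := fun l =>
    ((continuous_apply l).tendsto c).comp hcb
  have hD : ∀ l, Tendsto (fun n => |t (σ l) - t (σ' n l)|) atTop (𝓝 0) := fun l =>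
    squeeze_zero (fun _ => abs_nonneg _) (fun n => (tsmall (hne n l) (hag n l)).2)
      (by simpa using r_lim.const_mul 2)
  have hT : ∀ l, Tendsto (fun n => t (σ' n l)) atTop (𝓝 (t (σ l))) := fun l => by
    rw [tendsto_iff_norm_sub_tendsto_zero]
    simpa only [Real.norm_eq_abs, abs_sub_comm] using hD l
  have hc0 : c l0 ≠ 0 := fun h => by
    have := ind l0 c h fun y hy => by
      refine tendsto_nhds_unique (l := (U : Filter ℕ)) (tendsto_finset_sum _ fun l _ =>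
        (hcb' l).mul (((an l y).continuousAt.tendsto.comp (hT l)).mono_left hU)) ?_
      simp only [Function.comp_apply, rel _ y hy]
      exact tendsto_const_nhds
    simp [this] at hc
  obtain ⟨p, g, g1, g2, g3⟩ := (an l0 y0).exists_eventuallyEq_pow_smul_nonzero_iff.2
    (H_ne (hb l0 y0).choose_spec (h1 l0) ((t_bd _).trans_lt (by norm_num)))
  have e1 : Tendsto (fun n => b n l0 * g (t (σ' n l0))) U (𝓝 (c l0 * g (t (σ l0)))) :=
    (hcb' l0).mul ((g1.continuousAt.tendsto.comp (hT l0)).mono_left hU)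
  have e2 : ∀ l, l ≠ l0 → Tendsto (fun n => b n l * (H (a l y0) (t (σ' n l)) /
      (t (σ' n l0) - t (σ l0)) ^ p)) U (𝓝 (c l * 0)) := fun l hl' => by
    refine (hcb' l).mul ?_
    obtain ⟨L, L0, hL⟩ := ((an l y0).differentiableAt.isBigO_sub).exists_pos
    refine squeeze_zero_norm' (a := fun n => L * |t (σ l0) - t (σ' n l0)|) ?_
      (by simpa using ((hD l0).const_mul L).mono_left hU)
    filter_upwards [hl, hU ((hT l).eventually hL.bound), hU (sep (hσ.ne hl') (p + 2)),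
      hU ((hD l).eventually (gt_mem_nhds zero_lt_one)),
      hU ((hD l0).eventually (gt_mem_nhds zero_lt_one))] with n q1 q2 q3 q4 q5
    have q6 := abs_pos.2 (tsmall (hne n l0) (hag n l0)).1
    have q6' := abs_pos.2 (tsmall (hne n l) (hag n l)).1
    have q7 := hlm n l
    rw [q1] at q7
    have q8 : |t (σ l) - t (σ' n l)| ≤ |t (σ l0) - t (σ' n l0)| ^ (p + 1) := by
      rcases q3 _ _ (hne n l) (hne n l0) (hag n l) (hag n l0) with h | h
      · exact h.trans (pow_le_pow_of_le_one q6.le q5.le (by omega))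
      · have := pow_lt_pow_right_of_lt_one₀ q6' q4 (show 1 < p + 2 by omega)
        rw [pow_one] at this
        linarith
    simp only [h0 l, sub_zero, Real.norm_eq_abs] at q2
    rw [norm_div, norm_pow, Real.norm_eq_abs, Real.norm_eq_abs, abs_sub_comm (t (σ' n l0)),
      div_le_iff₀ (by positivity), mul_assoc, ← pow_succ']
    rw [abs_sub_comm] at q8
    exact q2.trans (mul_le_mul_of_nonneg_left q8 L0.le)
  have e3 := (tendsto_finset_sum (Finset.univ.erase l0) fun l hl' => e2 l (Finset.ne_of_mem_erase hl')).neg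
  have e4 : c l0 * g (t (σ l0)) = 0 := by
    refine tendsto_nhds_unique e1 ?_
    simp only [mul_zero, Finset.sum_const_zero, neg_zero] at e3
    refine e3.congr' ?_
    filter_upwards [hU ((hT l0).eventually g3)] with n q1
    have q2 := rel n y0 hy
    have q3 : (t (σ' n l0) - t (σ l0)) ^ p ≠ 0 := pow_ne_zero _ fun h =>
      (tsmall (hne n l0) (hag n l0)).1 (by linarith)
    rw [← Finset.add_sum_erase _ _ (Finset.mem_univ l0), q1, smul_eq_mul] at q2
    simp only [← mul_div_assoc, ← Finset.sum_div]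
    field_simp
    linarith
  exact mul_ne_zero hc0 g2 e4

lemma cond {W ι M : Type} [Finite ι] [Countable M] (G : Set W) (hG : ¬ G.Countable)
    (τ : W → ι → W) (m : W → M) (σ : W → ℕ → Fin 2)
    (hc : ∀ β, {α | α ∈ G ∧ ∃ l, τ α l = β}.Countable) :
    ∃ α ∈ G, ∀ n, ∃ α' ∈ G, (∀ l, m (τ α' l) = m (τ α l)) ∧ (∀ l, τ α l ≠ τ α' l) ∧
      ∀ l, ∀ i < n, σ (τ α l) i = σ (τ α' l) i := by
  by_contra! h
  choose! N hN using h
  let f : W → (ι → M) × (Σ n : ℕ, ι → Fin n → Fin 2) := fun α =>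
    (fun l => m (τ α l), ⟨N α, fun l i => σ (τ α l) i⟩)
  refine hG ((countable_iUnion fun v => ?_).mono (s₂ := ⋃ v, G ∩ f ⁻¹' {v}) fun α hα => ?_)
  swap
  · exact mem_iUnion.2 ⟨f α, hα, rfl⟩
  rcases (G ∩ f ⁻¹' {v}).eq_empty_or_nonempty with h | ⟨α, h1, h2⟩
  · rw [h]; exact countable_empty
  refine (countable_iUnion fun l => hc (τ α l)).mono fun α' ⟨h3, h4⟩ => ?_
  have h5 : f α' = f α := h4.trans h2.symm
  by_contra h6
  obtain ⟨l, i, hi, h7⟩ := hN α h1 α' h3 (fun l => congrFun (congrArg Prod.fst h5) l)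
    fun l h => h6 (mem_iUnion.2 ⟨l, h3, l, h.symm⟩)
  have h8 := congrArg (fun z : (ι → M) × (Σ n : ℕ, ι → Fin n → Fin 2) =>
    if h : i < z.2.1 then z.2.2 l ⟨i, h⟩ else 0) h5
  have h9 : N α' = N α := congrArg (fun z : (ι → M) × (Σ n : ℕ, ι → Fin n → Fin 2) => z.2.1) h5
  simp only [f, dif_pos hi, dif_pos (h9 ▸ hi : i < N α')] at h8
  exact h7 h8.symm

open Submodule in
theorem key {Y W M : Type} [AddCommGroup Y] [Module ℝ Y] (hY : ¬ Module.Finite ℝ Y) [Countable M]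
    (σ : W → ℕ → Fin 2) (hσ : Function.Injective σ) (Z : Set W) (hZ : Z.Countable) (m : W → M)
    (a : M → Y → ℕ → ℝ) (hb : ∀ μ y, ∃ C, ∀ n, |a μ y n| ≤ C) (u : W → Y →ₗ[ℝ] ℝ)
    (hu : ∀ α ∉ Z, ∀ y, u α y = H (a (m α) y) (t (σ α)))
    (hne : ∀ α ∉ Z, ∀ y ≠ 0, a (m α) y ≠ 0) (k : ℕ) : ∀ R : Finset W,
    {α | ∃ B : Finset W, B.card < k ∧ α ∉ B ∧ u α ∈ span ℝ (u '' (R ∪ B))}.Countable := by
  classical
  induction k with
  | zero => intro R; simp
  | succ k ih =>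
  intro R
  set Nk : Finset W → Set W := fun R =>
    {α | ∃ B : Finset W, B.card < k ∧ α ∉ B ∧ u α ∈ span ℝ (u '' (R ∪ B))} with hNk
  by_contra hN
  have h1 : ∀ α ∈ {α | ∃ B : Finset W, B.card < k + 1 ∧ α ∉ B ∧ u α ∈ span ℝ (u '' (R ∪ B))} \ Nk R,
      ∃ τ : Fin (k + 1) → W, Function.Injective τ ∧ τ 0 = α ∧
        u α ∈ span ℝ (u '' (R ∪ range fun i : Fin k => τ i.succ)) := by
    rintro α ⟨⟨B, b1, b2, b3⟩, b4⟩
    have b5 : B.card = k := by
      by_contra h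
      exact b4 ⟨B, by omega, b2, b3⟩
    let e := (Finset.equivFinOfCardEq b5).symm
    have he : (range fun i => (e i : W)) = B := by
      ext x; constructor
      · rintro ⟨i, rfl⟩; exact (e i).2
      · intro hx; exact ⟨e.symm ⟨x, hx⟩, by simp⟩
    refine ⟨Fin.cons α fun i => e i, Fin.cons_injective_iff.2 ⟨by rw [he]; exact b2,
      Subtype.val_injective.comp e.injective⟩, rfl, ?_⟩
    simpa only [Fin.cons_succ, he] using b3
  choose! τ τ1 τ2 τ3 using h1
  set G0 := {α | ∃ B : Finset W, B.card < k + 1 ∧ α ∉ B ∧ u α ∈ span ℝ (u '' (R ∪ B))} \ Nk R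
  have hG0 : ¬ G0.Countable := fun h => hN ((h.union (ih R)).mono (subset_diff_union _ _))
  have hc : ∀ β, {α | α ∈ G0 ∧ ∃ l, τ α l = β}.Countable := fun β => by
    refine ((ih (insert β R)).insert β).mono ?_
    rintro α ⟨hα, l, hl⟩
    induction l using Fin.cases with
    | zero => exact Or.inl ((τ2 α hα).symm.trans hl)
    | succ j =>
      refine Or.inr ⟨(Finset.univ.erase j).image fun i : Fin k => τ α i.succ, ?_, ?_, ?_⟩
      · refine Finset.card_image_le.trans_lt ?_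
        rw [Finset.card_erase_of_mem (Finset.mem_univ _), Finset.card_fin]
        have := j.pos; omega
      · intro h
        obtain ⟨i, -, hi⟩ := Finset.mem_image.1 h
        exact Fin.succ_ne_zero i (τ1 α hα (hi.trans (τ2 α hα).symm))
      · refine span_mono (image_mono ?_) (τ3 α hα)
        rintro x (hx | ⟨i, rfl⟩)
        · exact Or.inl (Finset.mem_insert_of_mem hx)
        · by_cases h : i = j
          · left; simp [h, hl]
          · right; simp only [Finset.coe_image]; exact ⟨i, by simp [h], rfl⟩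
  set G := G0 \ ⋃ β ∈ Z ∪ Nk R, {α | α ∈ G0 ∧ ∃ l, τ α l = β}
  have hG : ¬ G.Countable := fun h =>
    hG0 ((h.union ((hZ.union (ih R)).biUnion fun β _ => hc β)).mono (subset_diff_union _ _))
  have gZ : ∀ α ∈ G, ∀ l, τ α l ∉ Z ∪ Nk R := fun α hα l h =>
    hα.2 (mem_biUnion h (show α ∈ {α' | α' ∈ G0 ∧ ∃ l', τ α' l' = τ α l} from ⟨hα.1, l, rfl⟩))
  obtain ⟨α, hα, h2⟩ := cond G hG τ m σ fun β => (hc β).mono fun α h => And.intro h.1.1 h.2
  choose α' a1 a2 a3 a4 using h2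
  let S : Set Y := {y | ∀ ρ ∈ R, u ρ y = 0}
  have rel : ∀ γ ∈ G, ∃ b : Fin (k + 1) → ℝ, ‖b‖ = 1 ∧ ∀ y ∈ S, ∑ l, b l * u (τ γ l) y = 0 := by
    intro γ hγ
    have h3 := τ3 γ hγ.1
    rw [image_union, span_union, ← range_comp' u] at h3
    obtain ⟨v, hv, w, hw, h4⟩ := mem_sup.1 h3
    obtain ⟨c, rfl⟩ := (mem_span_range_iff_exists_fun ℝ).1 hw
    let b : Fin (k + 1) → ℝ := Fin.cons (-1) c
    have b0 : b ≠ 0 := fun h => by simpa [b] using congrFun h 0
    refine ⟨‖b‖⁻¹ • b, norm_smul_inv_norm b0, fun y hy => ?_⟩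
    have h5 : v y = 0 := by
      have : span ℝ (u '' R) ≤ LinearMap.ker (LinearMap.applyₗ y : (Y →ₗ[ℝ] ℝ) →ₗ[ℝ] ℝ) :=
        span_le.2 (by rintro _ ⟨ρ, hρ, rfl⟩; exact hy ρ hρ)
      exact this hv
    have h6 := LinearMap.congr_fun h4 y
    simp only [LinearMap.add_apply, h5, LinearMap.sum_apply, LinearMap.smul_apply, smul_eq_mul] at h6
    simp only [Pi.smul_apply, smul_eq_mul, mul_assoc, ← Finset.mul_sum]
    rw [Fin.sum_univ_succ, τ2 γ hγ.1]
    simp only [b, Fin.cons_zero, Fin.cons_succ]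
    rw [← h6]; ring
  choose! b b1 b2 using rel
  have nZ : ∀ γ ∈ G, ∀ l, τ γ l ∉ Z := fun γ hγ l h => gZ γ hγ l (Or.inl h)
  obtain ⟨y0, y1, y2⟩ : ∃ y : Y, (LinearMap.pi fun i : R ⊕ Fin (k + 1) =>
      u (i.elim (fun ρ => ρ.1) (τ α))) y = 0 ∧ y ≠ 0 := by
    by_contra! h
    exact hY (Module.Finite.of_injective _ ((injective_iff_map_eq_zero _).2 h))
  refine core S (fun l => a (m (τ α l))) (fun l => hb _) (fun l => σ (τ α l)) (hσ.comp (τ1 α hα.1))
    (fun n l => σ (τ (α' n) l)) (fun n l => hσ.ne (a3 n l)) a4 (fun n => b (α' n))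
    (fun n => b1 _ (a1 n)) (fun n y hy => ?_) (fun l0 c c0 hc => ?_) y0
    (fun ρ hρ => congrFun y1 (Sum.inl ⟨ρ, hρ⟩)) (fun l => ?_) (fun l => hne _ (nZ α hα l) _ y2)
  · rw [← b2 _ (a1 n) y hy]
    exact Finset.sum_congr rfl fun l _ => by rw [hu _ (nZ _ (a1 n) l), a2]
  · by_contra h
    obtain ⟨j, hj⟩ := Function.ne_iff.1 h
    have hj : c j ≠ 0 := hj
    have jl : j ≠ l0 := fun h => hj (h ▸ c0)
    have h3 : ∑ l, c l • u (τ α l) ∈ span ℝ (range fun ρ : R => u ρ) :=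
      mem_span_of_iInf_ker_le_ker fun y hy => by
        simp only [Submodule.mem_iInf, LinearMap.mem_ker] at hy
        rw [LinearMap.mem_ker, ← hc y fun ρ hρ => hy ⟨ρ, hρ⟩, LinearMap.sum_apply]
        exact Finset.sum_congr rfl fun l _ => by rw [← hu _ (nZ α hα l)]; rfl
    refine gZ α hα j (Or.inr ⟨((Finset.univ.erase l0).erase j).image (τ α), ?_, ?_, ?_⟩)
    · refine Finset.card_image_le.trans_lt ?_
      have := Finset.card_erase_lt_of_mem (Finset.mem_erase.2 ⟨jl, Finset.mem_univ j⟩)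
      rw [Finset.card_erase_of_mem (Finset.mem_univ l0), Finset.card_fin] at this
      exact this
    · intro h
      obtain ⟨i, hi, h4⟩ := Finset.mem_image.1 h
      exact Finset.ne_of_mem_erase hi (τ1 α hα.1 h4)
    · rw [← Finset.add_sum_erase _ _ (Finset.mem_univ l0), c0, zero_smul, zero_add,
        ← Finset.add_sum_erase _ _ (Finset.mem_erase.2 ⟨jl, Finset.mem_univ j⟩)] at h3
      have h4 : ∑ l ∈ (Finset.univ.erase l0).erase j, c l • u (τ α l) ∈
          span ℝ (u '' (R ∪ (((Finset.univ.erase l0).erase j).image (τ α) : Finset W))) :=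
        sum_mem fun l hl => smul_mem _ _ (subset_span ⟨_, Or.inr (Finset.mem_image_of_mem _ hl), rfl⟩)
      rw [← smul_mem_iff _ hj, ← Submodule.add_mem_iff_left _ h4]
      refine span_mono ?_ h3
      rintro _ ⟨ρ, rfl⟩
      exact ⟨ρ, Or.inl ρ.2, rfl⟩
  · rw [← hu _ (nZ α hα l)]
    exact congrFun y1 (Sum.inr l)

end Pool.Agent.H.MP_735d18_an
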